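import Pool.Agent.H30WD.Inst

/-!
MP_0e64fd_an, Q1: a transcendental entire function with a multiply connected wandering domain whose
inner boundary is everywhere accumulated by complementary components of type 2 (and of types 1
and 3).
-/

set_option autoImplicit false

open Filter Topology Metric Set

namespace Pool.Agent.Results.MP_0e64fd_an.AllTypesDense

open Pool.Agent.H384R2.Fatou Pool.Agent.W723.MC Pool.Agent.H30WD

theorem result : ∃ f : ℂ → ℂ, Differentiable ℂ f ∧ (¬ ∃ P : Polynomial ℂ, ∀ z, f z = P.eval z) ∧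
    ∃ U : ℕ → Set ℂ, (∀ n, ∃ z ∈ FatouSet f, U n = FatouComponent f z) ∧
      (∀ n, f '' U n ⊆ U (n + 1)) ∧ (∀ m n, m ≠ n → U m ≠ U n) ∧
      ∀ n, IsWanderingDomain f (U n) ∧ Bornology.IsBounded (U n) ∧ ¬ IsConnected (U n)ᶜ ∧
        ∃ ρ : ℝ, 0 < ρ ∧ sphere (0 : ℂ) ρ ⊆ U n ∧ (frontier (U n) ∩ ball 0 ρ).Nonempty ∧
          ∀ x ∈ frontier (U n), x ∈ ball (0 : ℂ) ρ → ∀ r : ℝ, 0 < r →
            {K | IsType1 f (U n) K ∧ K ⊆ ball 0 ρ ∧ (interior K ∩ ball x r).Nonempty}.Infinite ∧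
            {K | IsType2 f (U n) K ∧ K ⊆ ball 0 ρ ∧ (interior K ∩ ball x r).Nonempty}.Infinite ∧
            ¬ {K | IsType3 (U n) K ∧ K ⊆ ball 0 ρ ∧ (K ∩ ball x r).Nonempty}.Countable := by
  have h := td
  refine ⟨ff, ff_differentiable, ff_not_poly, fun n => FatouComponent ff (pp n),
    fun n => ⟨pp n, h.pF n, rfl⟩, fun n => image_subset_iff.2 (h.UU n), h.Une, fun n => ?_⟩
  have hab := h.hαβ n
  have hρ0 : 0 < (2 * aa n + RR n) / 2 := by linarith [aa_pos n]
  have hsph : sphere (0 : ℂ) ((2 * aa n + RR n) / 2) ⊆ FatouComponent ff (pp n) := by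
    intro z hz
    apply h.BU n
    rw [mem_sphere_zero_iff_norm] at hz
    exact ⟨by rw [hz]; linarith, by rw [hz]; linarith⟩
  have hbd : FatouComponent ff (pp n) ⊆ closedBall 0 (2 * aa (n + 1)) := by
    have h1 : ‖pp n‖ < RR (n + 1) := by
      have h2 := (h.mem_B.1 (h.hp n)).2
      have h3 := h.β_mono (Nat.le_succ n)
      exact lt_of_lt_of_le h2 h3
    have h2 := annulus_split (isPreconnected_connectedComponentIn
      (F := FatouSet ff) (x := pp n)) (h.hαβ (n + 1)) (h.pU n) h1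
      (fun y hy hyB => h.Une n (n + 1) (by omega)
        (comp_eq_of_mem hy (h.BU (n + 1) (h.mem_B.2 hyB))))
    intro y hy
    simpa using h2 y hy
  have hsubK : ∀ K, IsComplComp (FatouComponent ff (pp n)) K →
      (K ∩ ball 0 (RR n)).Nonempty → K ⊆ ball 0 ((2 * aa n + RR n) / 2) := by
    rintro _ ⟨z, hz, rfl⟩ ⟨y, hy, hyb⟩ w hw
    rw [mem_ball_zero_iff] at hyb ⊢
    have hw' : w ∈ cpl (FatouComponent ff (pp n)) z := hw
    rw [cpl_eq hy] at hw'
    have h1 := h.cpl_norm hyb hw'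
    linarith
  refine ⟨⟨fun k => FatouComponent ff (pp (n + k)), rfl, fun k => ⟨pp (n + k), h.pF _, rfl⟩,
    fun k => image_subset_iff.2 (h.iter_maps h.UU n k), fun j k hjk => h.Une _ _ (by omega)⟩,
    isBounded_closedBall.subset hbd, ?_, (2 * aa n + RR n) / 2, hρ0, hsph, ?_, ?_⟩
  · intro hcon
    have h1 := hcon.isPreconnected
    -- a point of the complement outside the circle
    have h2 : pp (n + 1) ∈ (FatouComponent ff (pp n))ᶜ := by
      intro h3
      exact h.Une n (n + 1) (by omega) (comp_eq_of_mem h3 (h.pU (n + 1)))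
    have h4 : (2 * aa n + RR n) / 2 ≤ ‖pp (n + 1)‖ := by
      have h5 := (h.mem_B.1 (h.hp (n + 1))).1
      have h6 := h.hβα n
      linarith
    have h7 := h1.intermediate_value (h.zero_not_mem n) h2 (f := fun z : ℂ => ‖z‖) (by fun_prop)
    obtain ⟨z, hz, hz2⟩ := h7 ⟨by rw [norm_zero]; exact hρ0.le, h4⟩
    exact hz (hsph (by rw [mem_sphere_zero_iff_norm]; exact hz2))
  · obtain ⟨y, hy, -, hyf⟩ := exists_frontier (component_isOpen ff (pp n))
      (convex_closedBall (0 : ℂ) ((2 * aa n + RR n) / 2)).isPreconnected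
      (mem_closedBall_self hρ0.le) (h.zero_not_mem n)
      (u := (((2 * aa n + RR n) / 2 : ℝ) : ℂ))
      (by rw [mem_closedBall_zero_iff, Complex.norm_real, Real.norm_eq_abs, abs_of_pos hρ0])
      (hsph (by rw [mem_sphere_zero_iff_norm, Complex.norm_real, Real.norm_eq_abs,
        abs_of_pos hρ0]))
    refine ⟨y, hyf, ?_⟩
    rw [mem_closedBall_zero_iff] at hy
    rw [mem_ball_zero_iff]
    refine lt_of_le_of_ne hy fun he => ?_
    exact not_mem_of_frontier (component_isOpen ff (pp n)) hyf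
      (hsph (by rw [mem_sphere_zero_iff_norm]; exact he))
  · intro x hx hxρ r hr
    have hxβ : x ∈ ball (0 : ℂ) (RR n) := by
      rw [mem_ball_zero_iff] at hxρ ⊢
      linarith
    set P1 : Set ℂ → Prop := fun K => IsType1 ff (FatouComponent ff (pp n)) K ∧
      (K ∩ ball 0 (RR n)).Nonempty with hP1
    set P2 : Set ℂ → Prop := fun K => IsType2 ff (FatouComponent ff (pp n)) K ∧
      (K ∩ ball 0 (RR n)).Nonempty with hP2
    have hd1 : ∀ x ∈ frontier (FatouComponent ff (pp n)), x ∈ ball (0 : ℂ) (RR n) →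
        ∀ r : ℝ, 0 < r → ∃ q ∈ ball x r,
          P1 (cpl (FatouComponent ff (pp n)) q) ∧
          q ∈ interior (cpl (FatouComponent ff (pp n)) q) := by
      intro x hx hxβ r hr
      obtain ⟨r', hr', hsub⟩ := exists_small isOpen_ball hxβ hr
      obtain ⟨q, hq, h1, h2⟩ := h.dense1 hx (mem_ball_zero_iff.1 hxβ) hr'
      exact ⟨q, (hsub hq).1, ⟨h1, q, interior_subset h2, (hsub hq).2⟩, h2⟩
    have hd2 : ∀ x ∈ frontier (FatouComponent ff (pp n)), x ∈ ball (0 : ℂ) (RR n) →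
        ∀ r : ℝ, 0 < r → ∃ q ∈ ball x r,
          P2 (cpl (FatouComponent ff (pp n)) q) ∧
          q ∈ interior (cpl (FatouComponent ff (pp n)) q) := by
      intro x hx hxβ r hr
      obtain ⟨r', hr', hsub⟩ := exists_small isOpen_ball hxβ hr
      obtain ⟨q, hq, h1, h2⟩ := h.dense2 hx (mem_ball_zero_iff.1 hxβ) hr'
      exact ⟨q, (hsub hq).1, ⟨h1, q, interior_subset h2, (hsub hq).2⟩, h2⟩
    refine ⟨?_, ?_, ?_⟩
    · refine (infinite_near (P := P1) (Q := P2) (component_isOpen ff (pp n)) isOpen_ball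
        (fun K hK => hK.1.1) (fun K h1 h2 => not_both h1.1 h2.1) hd1 hd2 hx hxβ hr).mono ?_
      rintro K ⟨⟨h1, h2⟩, h3⟩
      exact ⟨h1, hsubK K h1.1 h2, h3⟩
    · refine (infinite_near (P := P2) (Q := P1) (component_isOpen ff (pp n)) isOpen_ball
        (fun K hK => hK.1.1) (fun K h1 h2 => not_both h2.1 h1.1) hd2 hd1 hx hxβ hr).mono ?_
      rintro K ⟨⟨h1, h2⟩, h3⟩
      exact ⟨h1, hsubK K h1.1 h2, h3⟩
    · intro hc
      refine uncountable_near (P := P1) (Q := P2) (component_isOpen ff (pp n)) isOpen_ball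
        (fun K h1 h2 => not_both h1.1 h2.1) hd1 hd2 hx hxβ hr (hc.mono ?_)
      rintro K ⟨h1, y, hy, hy1, hy2⟩
      exact ⟨h1, hsubK K h1.1 ⟨y, hy, hy2⟩, y, hy, hy1⟩

end Pool.Agent.Results.MP_0e64fd_an.AllTypesDense
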